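import Pool.Agent.Helper45.AM.GoalsA

/-!
# Project AM (MP_cc6379_al): packet AM-AR (the elements `T_x c_g T_y`).
-/

set_option autoImplicit false

open LaurentPolynomial Pool.Agent.Helper15.RA Pool.Agent.Helper45.AM

noncomputable section

namespace Pool.Agent.Helper33.AM

section gen

/-- The coefficient of `v^n` as an additive homomorphism. -/
def cf (n : ℤ) : ℤ[T;T⁻¹] →+ ℤ where
  toFun p := p.coeff n
  map_zero' := rfl
  map_add' p q := by rw [AddMonoidAlgebra.coeff_add, Finsupp.add_apply]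

theorem cf_apply (n : ℤ) (p : ℤ[T;T⁻¹]) : cf n p = p.coeff n := rfl

theorem degLE_zsmul {k : ℤ} {p : ℤ[T;T⁻¹]} (h : DegLE k p) (m : ℤ) : DegLE k (m • p) := fun n hn => by
  have h1 : cf n (m • p) = m • cf n p := map_zsmul _ _ _
  have h2 : cf n p = 0 := h n hn
  rw [h2, smul_zero] at h1
  exact h1

theorem coeff_T_mul {k : ℤ} {p : ℤ[T;T⁻¹]} (n : ℤ) (hp : DegLE k p) :
    ((T n : ℤ[T;T⁻¹]) * p).coeff (n + k) = p.coeff k := by
  rw [coeff_mul_top (DegLE.T_le le_rfl) hp, T_apply, if_pos rfl, one_mul]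

variable {W H : Type} [Ring H] [Algebra ℤ[T;T⁻¹] H]

theorem expand (β : Module.Basis W ℤ[T;T⁻¹] H) (Z : H) :
    Z = ∑ u ∈ (β.repr Z).support, β.repr Z u • β u := (β.linearCombination_repr Z).symm

theorem mul_expand (β : Module.Basis W ℤ[T;T⁻¹] H) (Z Y : H) (z : W) :
    β.repr (Z * Y) z = ∑ u ∈ (β.repr Z).support, ∑ v ∈ (β.repr Y).support,
      β.repr Z u * β.repr Y v * β.repr (β u * β v) z := by
  have hZ := expand β Z
  have hY := expand β Y
  calc β.repr (Z * Y) z = β.repr ((∑ u ∈ (β.repr Z).support, β.repr Z u • β u) *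
        (∑ v ∈ (β.repr Y).support, β.repr Y v • β v)) z := by rw [← hZ, ← hY]
    _ = _ := by
      rw [Finset.sum_mul_sum, map_sum, Finsupp.finsetSum_apply]
      refine Finset.sum_congr rfl fun u _ => ?_
      rw [map_sum, Finsupp.finsetSum_apply]
      refine Finset.sum_congr rfl fun v _ => ?_
      rw [smul_mul_smul_comm, map_smul, Finsupp.smul_apply, smul_eq_mul]

theorem mul_deg (β : Module.Basis W ℤ[T;T⁻¹] H) (G : Set W) {z : W} {m k l : ℤ}
    (hm : ∀ u ∈ G, ∀ v ∈ G, DegLE m (β.repr (β u * β v) z)) {Z Y : H}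
    (hZ : ∀ u, DegLE k (β.repr Z u)) (hZs : ∀ u, β.repr Z u ≠ 0 → u ∈ G)
    (hY : ∀ u, DegLE l (β.repr Y u)) (hYs : ∀ u, β.repr Y u ≠ 0 → u ∈ G) :
    DegLE (k + l + m) (β.repr (Z * Y) z) := by
  rw [mul_expand]
  refine DegLE.sum fun u hu => DegLE.sum fun v hv => ?_
  exact ((hZ u).mul (hY v)).mul (hm u (hZs u (Finsupp.mem_support_iff.1 hu)) v
    (hYs v (Finsupp.mem_support_iff.1 hv)))

theorem mul_supp (β : Module.Basis W ℤ[T;T⁻¹] H) (G : Set W)
    (hG : ∀ u ∈ G, ∀ v ∈ G, ∀ z, β.repr (β u * β v) z ≠ 0 → z ∈ G) {Z Y : H}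
    (hZs : ∀ u, β.repr Z u ≠ 0 → u ∈ G) (hYs : ∀ u, β.repr Y u ≠ 0 → u ∈ G) (z : W)
    (hz : β.repr (Z * Y) z ≠ 0) : z ∈ G := by
  by_contra h
  apply hz
  rw [mul_expand]
  refine Finset.sum_eq_zero fun u hu => Finset.sum_eq_zero fun v hv => ?_
  have h0 : β.repr (β u * β v) z = 0 := by
    by_contra h1
    exact h (hG u (hZs u (Finsupp.mem_support_iff.1 hu)) v (hYs v (Finsupp.mem_support_iff.1 hv)) z h1)
  rw [h0, mul_zero]

end gen

section base

variable {S W H : Type} [Group W] [Ring H] [Algebra ℤ[T;T⁻¹] H]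

/-- `T`-support in `W_Q`, `T`-coordinates of degree at most `k` -/
def Bt (X : Base S W H) (Q : Set S) (k : ℤ) (Z : H) : Prop :=
  ∀ z, DegLE k (X.D.t.repr Z z) ∧ (X.D.t.repr Z z ≠ 0 → z ∈ par X.cs Q)

/-- `c`-support in `W_Q`, `c`-coordinates of degree at most `k` -/
def Bc (X : Base S W H) (Q : Set S) (k : ℤ) (Z : H) : Prop :=
  ∀ z, DegLE k (X.b.repr Z z) ∧ (X.b.repr Z z ≠ 0 → z ∈ par X.cs Q)

theorem bt_iff_bc (hB : A_B) (hS : A_S) (X : Base S W H) (Q : Set S) (k : ℤ) (Z : H) :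
    Bt X Q k Z ↔ Bc X Q k Z := by
  obtain ⟨-, -, -, -, B5, -⟩ := hB S W H X
  obtain ⟨-, -, -, -, -, -, S7, -⟩ := hS S W H X Q
  constructor
  · intro h z
    exact ⟨(B5 k Z).1 (fun w => (h w).1) z, (S7 Z).1 (fun w => (h w).2) z⟩
  · intro h z
    exact ⟨(B5 k Z).2 (fun w => (h w).1) z, (S7 Z).2 (fun w => (h w).2) z⟩

theorem bt_t (X : Base S W H) {Q : Set S} {x : W} (hx : x ∈ par X.cs Q) : Bt X Q 0 (X.D.t x) := by
  classical
  intro z
  rw [X.D.t.repr_self, Finsupp.single_apply]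
  split_ifs with h
  · exact ⟨DegLE.one le_rfl, fun _ => h ▸ hx⟩
  · exact ⟨DegLE.zero 0, fun h1 => absurd rfl h1⟩

theorem bt_c (hS : A_S) (X : Base S W H) {Q : Set S} {g : W} (hg : g ∈ par X.cs Q) :
    Bt X Q 0 (X.D.c g) := by
  obtain ⟨-, -, -, S4, -⟩ := hS S W H X Q
  intro z
  refine ⟨?_, S4 g hg z⟩
  have h1 := (X.D.c_sub g z).mono (show (-1 : ℤ) ≤ 0 by norm_num)
  have h2 := (bt_t X hg z).1
  have h3 : X.D.t.repr (X.D.c g) z = X.D.t.repr (X.D.c g - X.D.t g) z + X.D.t.repr (X.D.t g) z := by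
    rw [map_sub, Finsupp.sub_apply, sub_add_cancel]
  rw [h3]
  exact h1.add h2

theorem bc_c (X : Base S W H) {Q : Set S} {g : W} (hg : g ∈ par X.cs Q) :
    Bc X Q 0 (X.D.c g) := by
  classical
  intro z
  rw [← X.hb, X.b.repr_self, Finsupp.single_apply]
  split_ifs with h
  · exact ⟨DegLE.one le_rfl, fun _ => h ▸ hg⟩
  · exact ⟨DegLE.zero 0, fun h1 => absurd rfl h1⟩

theorem Bt.mul (hS : A_S) {X : Base S W H} {Q : Set S} {N : ℕ}
    (hN : ∀ x ∈ par X.cs Q, ∀ y ∈ par X.cs Q, ∀ z, DegLE N (X.D.t.repr (X.D.t x * X.D.t y) z))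
    {k l : ℤ} {Z Y : H} (hZ : Bt X Q k Z) (hY : Bt X Q l Y) : Bt X Q (k + l + N) (Z * Y) := by
  obtain ⟨-, S2, -⟩ := hS S W H X Q
  intro z
  refine ⟨mul_deg X.D.t (par X.cs Q : Set W) (fun u hu v hv => hN u hu v hv z) (fun u => (hZ u).1)
    (fun u => (hZ u).2) (fun u => (hY u).1) fun u => (hY u).2, ?_⟩
  refine mul_supp X.D.t (par X.cs Q : Set W) ?_ (fun u => (hZ u).2) (fun u => (hY u).2) z
  intro u hu v hv w hw
  have h1 := S2 v hv u w hw
  have h2 : w = u * (u⁻¹ * w) := by group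
  rw [h2]
  exact mul_mem hu h1

/-- products in the basis `c` -/
theorem Bc.mul (hB : A_B) {X : Base S W H} {Q : Set S} {α : W → ℕ} (pQ : PG X.D X.h Q α)
    {k l : ℤ} {Z Y : H} (hZ : Bc X Q k Z) (hY : Bc X Q l Y) {z : W} (hz : z ∈ par X.cs Q) :
    DegLE (k + l + α z) (X.b.repr (Z * Y) z) := by
  obtain ⟨B1, -⟩ := hB S W H X
  refine mul_deg X.b (par X.cs Q : Set W) ?_ (fun u => (hZ u).1) (fun u => (hZ u).2) (fun u => (hY u).1)
    fun u => (hY u).2
  intro u hu v hv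
  rw [X.hb, X.hb, B1]
  exact pQ.deg u hu v hv z hz

/-- the leading coefficient of a product of two unitriangular elements -/
theorem lead (hB : A_B) {X : Base S W H} {Q : Set S} {α : W → ℕ} (pQ : PG X.D X.h Q α)
    {Z Y : H} {a b : W} (ha : a ∈ par X.cs Q) (hb : b ∈ par X.cs Q) (hZ : Bc X Q 0 Z) (hY : Bc X Q 0 Y)
    (hZa : X.b.repr Z a = 1) (hZ1 : ∀ w, w ≠ a → DegLE (-1) (X.b.repr Z w))
    (hYb : X.b.repr Y b = 1) (hY1 : ∀ w, w ≠ b → DegLE (-1) (X.b.repr Y w)) {z : W} (hz : z ∈ par X.cs Q) :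
    DegLE (α z) (X.b.repr (Z * Y) z) ∧ (X.b.repr (Z * Y) z).coeff (α z) = (X.h a b z).coeff (α z) := by
  classical
  obtain ⟨B1, -⟩ := hB S W H X
  have sub : ∀ (Z : H) (a : W), a ∈ par X.cs Q → Bc X Q 0 Z → X.b.repr Z a = 1 →
      (∀ w, w ≠ a → DegLE (-1) (X.b.repr Z w)) → Bc X Q (-1) (Z - X.D.c a) := by
    intro Z a ha hZ h1 h2 w
    rw [map_sub, Finsupp.sub_apply, ← X.hb, X.b.repr_self]
    by_cases hw : w = a
    · rw [hw, h1, Finsupp.single_eq_same, sub_self]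
      exact ⟨DegLE.zero _, fun h => absurd rfl h⟩
    · rw [Finsupp.single_eq_of_ne hw, sub_zero]
      exact ⟨h2 w hw, (hZ w).2⟩
  have e : Z * Y = X.D.c a * X.D.c b + ((Z - X.D.c a) * Y + X.D.c a * (Y - X.D.c b)) := by
    noncomm_ring
  have d0 : DegLE (α z) (X.h a b z) := pQ.deg a ha b hb z hz
  have d1 := (sub Z a ha hZ hZa hZ1).mul hB pQ hY hz
  have d2 := (bc_c X ha).mul hB pQ (sub Y b hb hY hYb hY1) hz
  have d3 : DegLE ((α z : ℤ) - 1) (X.b.repr ((Z - X.D.c a) * Y) z + X.b.repr (X.D.c a * (Y - X.D.c b)) z) :=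
    (d1.mono (by omega)).add (d2.mono (by omega))
  rw [e, map_add, Finsupp.add_apply, B1, map_add, Finsupp.add_apply]
  refine ⟨d0.add (d3.mono (by omega)), ?_⟩
  rw [AddMonoidAlgebra.coeff_add, Finsupp.add_apply, d3 _ (by omega), add_zero]

end base

/-- Packet AM-AR. -/
theorem h_a_r (hB : A_B) (hS : A_S) (hK : A_K) (hL : A_L) (hO : A_O) (hP : A_P) (hJ : A_J) : A_R := by
  intro S W H _ _ _ X P Q α hPQ pP pQ
  classical
  have hle : par X.cs P ≤ par X.cs Q := Subgroup.closure_mono (Set.image_mono hPQ)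
  obtain ⟨B1, -⟩ := hB S W H X
  obtain ⟨-, -, -, -, -, S6, -⟩ := hS S W H X P
  obtain ⟨-, -, O3, -, -, O6⟩ := hO S W H X P Q
  obtain ⟨⟨Na, hNa⟩, -⟩ := hP S W H X P α pP
  obtain ⟨-, -, -, J4, -⟩ := hJ S W H X Q α pQ
  obtain ⟨-, -, -, -, J5⟩ := hJ S W H X P α pP
  obtain ⟨N, hN⟩ := pQ.bdd
  have hBc : ∀ x g y, x ∈ par X.cs Q → g ∈ par X.cs P → y ∈ par X.cs Q →
      Bc X Q (2 * N) (X.D.t x * X.D.c g * X.D.t y) := by
    intro x g y hx hg hy
    rw [← bt_iff_bc hB hS]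
    have h := ((bt_t X hx).mul hS hN (bt_c hS X (hle hg))).mul hS hN (bt_t X hy)
    have e : (0 + 0 + (N : ℤ) + 0 + N) = 2 * N := by ring
    rwa [e] at h
  -- the elements `T_x c_k`, `c_k T_y`
  have hTc : ∀ x k, x ∈ par X.cs Q → k ∈ par X.cs P → XR X.cs P x → Bc X Q 0 (X.D.t x * X.D.c k) := by
    intro x k hx hk hxP z
    obtain ⟨k1, k2, -, -⟩ := hK S W H X P x k hxP hk
    have h := (bt_iff_bc hB hS X Q _ _).1 ((bt_t X hx).mul hS hN (bt_c hS X (hle hk)))
    refine ⟨?_, (h z).2⟩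
    by_cases hz : z = x * k
    · rw [hz, k1]
      exact DegLE.one le_rfl
    · exact (k2 z hz).mono (by norm_num)
  have hcT : ∀ k y, y ∈ par X.cs Q → k ∈ par X.cs P → XL X.cs P y → Bc X Q 0 (X.D.c k * X.D.t y) := by
    intro k y hy hk hyP z
    obtain ⟨k1, k2, -, -⟩ := hL S W H X P k y hyP hk
    have h := (bt_iff_bc hB hS X Q _ _).1 ((bt_c hS X (hle hk)).mul hS hN (bt_t X hy))
    refine ⟨?_, (h z).2⟩
    by_cases hz : z = k * y
    · rw [hz, k1]
      exact DegLE.one le_rfl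
    · exact (k2 z hz).mono (by norm_num)
  -- the step
  have step : ∀ (D : ℕ), (∀ x g y z, XR X.cs P x → x ∈ par X.cs Q → g ∈ par X.cs P → XL X.cs P y →
      y ∈ par X.cs Q → DegLE ((α z : ℤ) - α g + D) (X.b.repr (X.D.t x * X.D.c g * X.D.t y) z)) →
      ∀ x g y z, XR X.cs P x → x ∈ par X.cs Q → g ∈ par X.cs P → XL X.cs P y → y ∈ par X.cs Q →
      z ∈ par X.cs Q →
      ∃ F : ℤ[T;T⁻¹], DegLE ((α z : ℤ) - α g) F ∧
        (F.coeff ((α z : ℤ) - α g) ≠ 0 → X.eqR Q z (x * g) ∧ X.eqL Q z (g * y)) ∧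
        DegLE ((α z : ℤ) - α g + D - 1) (X.b.repr (X.D.t x * X.D.c g * X.D.t y) z - F) := by
    intro D hD x g y z hx hxQ hg hy hyQ hz
    obtain ⟨lam, l1, l2, l3⟩ := J5 g hg
    set V : H := (T (-(α g : ℤ)) : ℤ[T;T⁻¹]) • (lam.sum fun p m => m • (X.D.c p.1 * X.D.c p.2)) - X.D.c g
      with hV
    have hVc : ∀ u, X.b.repr V u = T (-(α g : ℤ)) * (lam.sum fun p m => m • X.h p.1 p.2 u) -
        (Finsupp.single g (1 : ℤ[T;T⁻¹])) u := by
      intro u
      rw [hV, map_sub, Finsupp.sub_apply, map_smul, Finsupp.smul_apply, smul_eq_mul, ← X.hb g, X.b.repr_self,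
        Finsupp.sum, map_sum, Finsupp.finsetSum_apply]
      congr 2
      refine Finset.sum_congr rfl fun p _ => ?_
      rw [map_zsmul, B1, Finsupp.smul_apply]
    have hVs : ∀ u, X.b.repr V u ≠ 0 → u ∈ par X.cs P := by
      intro u hu
      by_contra hn
      apply hu
      have hgu : u ≠ g := fun h => hn (h ▸ hg)
      rw [hVc, Finsupp.single_eq_of_ne hgu, sub_zero, Finsupp.sum, Finset.sum_eq_zero, mul_zero]
      intro p hp
      have h0 : X.h p.1 p.2 u = 0 := by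
        by_contra h1
        exact hn (S6 p.1 (l1 p hp).1 p.2 (l1 p hp).2.1 u h1)
      rw [h0, smul_zero]
    have hVd : ∀ u ∈ par X.cs P, DegLE ((α u : ℤ) - α g - 1) (X.b.repr V u) := by
      intro u hu
      have hq : DegLE (α u) (lam.sum fun p m => m • X.h p.1 p.2 u) :=
        DegLE.sum fun p hp => degLE_zsmul (pP.deg p.1 (l1 p hp).1 p.2 (l1 p hp).2.1 u hu) _
      have hqc : (lam.sum fun p m => m • X.h p.1 p.2 u).coeff (α u) =
          lam.sum fun p m => m * (X.h p.1 p.2 u).coeff (α u) := by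
        rw [← cf_apply, map_finsuppSum]
        refine Finsupp.sum_congr fun p _ => ?_
        rw [map_zsmul, smul_eq_mul, cf_apply]
      have h1 : DegLE (-(α g : ℤ) + α u) (T (-(α g : ℤ)) * (lam.sum fun p m => m • X.h p.1 p.2 u)) :=
        (DegLE.T_le le_rfl).mul hq
      have h2 := coeff_T_mul (-(α g : ℤ)) hq
      rw [hqc] at h2
      rw [hVc, show ((α u : ℤ) - α g - 1) = (-(α g : ℤ) + α u) - 1 by ring]
      by_cases hug : u = g
      · subst hug
        rw [Finsupp.single_eq_same]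
        rw [l2] at h2
        refine degLE_sub_one (h1.sub (DegLE.one (by omega))) ?_
        rw [← cf_apply, map_sub, cf_apply, h2, neg_add_cancel, cf_apply, ← T_zero, T_apply, if_pos rfl, sub_self]
      · rw [Finsupp.single_eq_of_ne hug, sub_zero]
        rw [l3 u hu hug] at h2
        exact degLE_sub_one h1 h2
    -- the products
    have hG : ∀ p ∈ lam.support,
        DegLE (α z) (X.b.repr ((X.D.t x * X.D.c p.1) * (X.D.c p.2 * X.D.t y)) z) ∧
        (X.b.repr ((X.D.t x * X.D.c p.1) * (X.D.c p.2 * X.D.t y)) z).coeff (α z) =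
          (X.h (x * p.1) (p.2 * y) z).coeff (α z) := by
      intro p hp
      obtain ⟨h1, h2, -, -⟩ := l1 p hp
      obtain ⟨k1, k2, -, -⟩ := hK S W H X P x p.1 hx h1
      obtain ⟨m1, m2, -, -⟩ := hL S W H X P p.2 y hy h2
      exact lead hB pQ (mul_mem hxQ (hle h1)) (mul_mem (hle h2) hyQ) (hTc x p.1 hxQ h1 hx)
        (hcT p.2 y hyQ h2 hy) k1 k2 m1 m2 hz
    set R : ℤ[T;T⁻¹] := lam.sum fun p m => m • X.b.repr ((X.D.t x * X.D.c p.1) * (X.D.c p.2 * X.D.t y)) z
      with hR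
    have hRd : DegLE (α z) R := DegLE.sum fun p hp => degLE_zsmul (hG p hp).1 _
    have hRc : R.coeff (α z) = lam.sum fun p m => m * (X.h (x * p.1) (p.2 * y) z).coeff (α z) := by
      rw [hR, ← cf_apply, map_finsuppSum]
      refine Finsupp.sum_congr fun p hp => ?_
      rw [map_zsmul, smul_eq_mul, cf_apply, (hG p hp).2]
    refine ⟨T (-(α g : ℤ)) * R, ?_, ?_, ?_⟩
    · exact ((DegLE.T_le le_rfl).mul hRd).mono (by omega)
    · intro hne
      rw [show ((α z : ℤ) - α g) = -(α g : ℤ) + α z by ring, coeff_T_mul _ hRd, hRc] at hne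
      obtain ⟨p, hp, hp0⟩ := Finset.exists_ne_zero_of_sum_ne_zero hne
      have hp1 := right_ne_zero_of_mul hp0
      obtain ⟨h1, h2, h3, h4⟩ := l1 p hp
      obtain ⟨j1, j2, -, -⟩ := J4 (x * p.1) (mul_mem hxQ (hle h1)) (p.2 * y) (mul_mem (hle h2) hyQ) z hz hp1
      have r1 := O3 hPQ x g p.1 hx hg h3.1
      have r2 := O3 hPQ x p.1 g hx h1 h3.2
      have s1 := O6 hPQ y g p.2 hy hg h4.1
      have s2 := O6 hPQ y p.2 g hy h2 h4.2
      refine ⟨⟨?_, ?_⟩, ⟨?_, ?_⟩⟩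
      · exact Relation.ReflTransGen.trans r1 j1.1
      · exact Relation.ReflTransGen.trans j1.2 r2
      · exact Relation.ReflTransGen.trans s1 j2.1
      · exact Relation.ReflTransGen.trans j2.2 s2
    · have e1 : X.b.repr (X.D.t x * X.D.c g * X.D.t y) z - T (-(α g : ℤ)) * R =
          -(X.b.repr (X.D.t x * V * X.D.t y) z) := by
        have e2 : X.D.t x * V * X.D.t y = (T (-(α g : ℤ)) : ℤ[T;T⁻¹]) • (lam.sum fun p m =>
            m • ((X.D.t x * X.D.c p.1) * (X.D.c p.2 * X.D.t y))) - X.D.t x * X.D.c g * X.D.t y := by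
          rw [hV, mul_sub, sub_mul, mul_smul_comm, smul_mul_assoc, Finsupp.sum, Finsupp.sum, Finset.mul_sum,
            Finset.sum_mul]
          congr 2
          refine Finset.sum_congr rfl fun p _ => ?_
          rw [mul_smul_comm, smul_mul_assoc]
          simp only [mul_assoc]
        rw [e2, map_sub, Finsupp.sub_apply, map_smul, Finsupp.smul_apply, smul_eq_mul, Finsupp.sum, map_sum,
          Finsupp.finsetSum_apply, neg_sub, hR, Finsupp.sum]
        congr 2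
        refine Finset.sum_congr rfl fun p _ => ?_
        rw [map_zsmul, Finsupp.smul_apply]
      have e3 : X.b.repr (X.D.t x * V * X.D.t y) z = ∑ u ∈ (X.b.repr V).support,
          X.b.repr V u * X.b.repr (X.D.t x * X.D.c u * X.D.t y) z := by
        have hVe := expand X.b V
        calc X.b.repr (X.D.t x * V * X.D.t y) z = X.b.repr (X.D.t x * (∑ u ∈ (X.b.repr V).support,
              X.b.repr V u • X.b u) * X.D.t y) z := by rw [← hVe]
          _ = _ := by
            rw [Finset.mul_sum, Finset.sum_mul, map_sum, Finsupp.finsetSum_apply]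
            refine Finset.sum_congr rfl fun u _ => ?_
            rw [mul_smul_comm, smul_mul_assoc, map_smul, Finsupp.smul_apply, smul_eq_mul, X.hb]
      rw [e1, e3]
      refine DegLE.neg (DegLE.sum fun u hu => ?_)
      have huP := hVs u (Finsupp.mem_support_iff.1 hu)
      exact (hVd u huP).mul_le (hD x u y z hx hxQ huP hy hyQ) (by omega)
  -- descending induction
  have start : ∀ x g y z, XR X.cs P x → x ∈ par X.cs Q → g ∈ par X.cs P → XL X.cs P y →
      y ∈ par X.cs Q → DegLE ((α z : ℤ) - α g + (2 * N + Na : ℕ))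
        (X.b.repr (X.D.t x * X.D.c g * X.D.t y) z) := by
    intro x g y z hx hxQ hg hy hyQ
    have := hNa g hg
    exact (hBc x g y hxQ hg hyQ z).1.mono (by push_cast; omega)
  have zero_out : ∀ x g y z, x ∈ par X.cs Q → g ∈ par X.cs P → y ∈ par X.cs Q → z ∉ par X.cs Q →
      X.b.repr (X.D.t x * X.D.c g * X.D.t y) z = 0 := by
    intro x g y z hxQ hg hyQ hz
    by_contra h
    exact hz ((hBc x g y hxQ hg hyQ z).2 h)
  have desc : ∀ D : ℕ, (∀ x g y z, XR X.cs P x → x ∈ par X.cs Q → g ∈ par X.cs P → XL X.cs P y →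
      y ∈ par X.cs Q → DegLE ((α z : ℤ) - α g + D) (X.b.repr (X.D.t x * X.D.c g * X.D.t y) z)) →
      ∀ x g y z, XR X.cs P x → x ∈ par X.cs Q → g ∈ par X.cs P → XL X.cs P y →
      y ∈ par X.cs Q → DegLE ((α z : ℤ) - α g + (0 : ℕ)) (X.b.repr (X.D.t x * X.D.c g * X.D.t y) z) := by
    intro D
    induction D with
    | zero => exact fun h => h
    | succ D ih =>
      intro hD
      apply ih
      intro x g y z hx hxQ hg hy hyQ
      by_cases hz : z ∈ par X.cs Q
      · obtain ⟨F, f1, -, f3⟩ := step (D + 1) hD x g y z hx hxQ hg hy hyQ hz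
        have e : X.b.repr (X.D.t x * X.D.c g * X.D.t y) z =
            F + (X.b.repr (X.D.t x * X.D.c g * X.D.t y) z - F) := by abel
        rw [e]
        exact (f1.mono (by omega)).add (f3.mono (by push_cast; omega))
      · rw [zero_out x g y z hxQ hg hyQ hz]
        exact DegLE.zero _
  have final := desc _ start
  intro x g y z hx hxQ hg hy hyQ
  refine ⟨(hBc x g y hxQ hg hyQ z).2, ?_, ?_⟩
  · exact (final x g y z hx hxQ hg hy hyQ).mono (by simp)
  · intro hne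
    have hz : z ∈ par X.cs Q := by
      by_contra hz
      rw [zero_out x g y z hxQ hg hyQ hz] at hne
      exact hne rfl
    obtain ⟨F, f1, f2, f3⟩ := step 0 final x g y z hx hxQ hg hy hyQ hz
    apply f2
    have h0 := f3 ((α z : ℤ) - α g) (by push_cast; omega)
    rw [← cf_apply, map_sub, cf_apply, cf_apply, sub_eq_zero] at h0
    rwa [← h0]

end Pool.Agent.Helper33.AM
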